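import Pool.Agent.AC833.Defs

/-!
Upper bounds for the autocorrelation constant from integer step functions.
-/

namespace Pool.Agent.AC833

open MeasureTheory

/-- extension of a finite sequence to the integers -/
def ext (N : ℕ) (a : ℕ → ℝ) (k : ℤ) : ℝ := if 0 ≤ k ∧ k < (N : ℤ) then a k.toNat else 0

lemma ext_nat (N : ℕ) (a : ℕ → ℝ) {n : ℕ} (h : n < N) : ext N a n = a n := by
  unfold ext
  rw [if_pos ⟨by positivity, by exact_mod_cast h⟩]
  simp

lemma ext_nonneg (N : ℕ) (a : ℕ → ℝ) (ha : ∀ i, 0 ≤ a i) (k : ℤ) : 0 ≤ ext N a k := by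
  unfold ext
  split_ifs
  · exact ha _
  · exact le_rfl

lemma ext_le (N : ℕ) (a : ℕ → ℝ) (ha : ∀ i, 0 ≤ a i) (k : ℤ) :
    ext N a k ≤ ∑ i ∈ Finset.range N, a i := by
  unfold ext
  split_ifs with h
  · apply Finset.single_le_sum (f := a) (fun i _ => ha i)
    rw [Finset.mem_range]
    omega
  · exact Finset.sum_nonneg fun i _ => ha i

lemma measurable_ext_floor (N : ℕ) (a : ℕ → ℝ) : Measurable (fun s : ℝ => ext N a ⌊s⌋) :=
  (Measurable.of_discrete (f := ext N a)).comp (Int.measurable_floor)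

lemma ext_mul_eq (N : ℕ) (a : ℕ → ℝ) (G : ℝ → ℝ) (s : ℝ) :
    ext N a ⌊s⌋ * G s = ∑ n ∈ Finset.range N,
      (Set.Ico (n : ℝ) (n + 1)).indicator (fun s => a n * G s) s := by
  by_cases h : 0 ≤ ⌊s⌋ ∧ ⌊s⌋ < (N : ℤ)
  · obtain ⟨h1, h2⟩ := h
    obtain ⟨m, hm⟩ := Int.eq_ofNat_of_zero_le h1
    have hmN : m < N := by omega
    rw [Finset.sum_eq_single m]
    · rw [hm]
      have : s ∈ Set.Ico (m : ℝ) (m + 1) := by
        have := Int.floor_eq_iff.mp hm
        simpa using this
      rw [Set.indicator_of_mem this]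
      exact congrArg (fun z => z * G s) (ext_nat N a hmN)
    · intro b _ hb
      apply Set.indicator_of_notMem
      intro hs
      apply hb
      have : ⌊s⌋ = (b : ℤ) := Int.floor_eq_iff.mpr (by simpa using hs)
      rw [hm] at this
      exact_mod_cast this.symm
    · intro h
      exact absurd (Finset.mem_range.mpr hmN) h
  · have : ext N a ⌊s⌋ = 0 := by unfold ext; rw [if_neg h]
    rw [this, zero_mul]
    symm
    apply Finset.sum_eq_zero
    intro n hn
    apply Set.indicator_of_notMem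
    intro hs
    apply h
    have : ⌊s⌋ = (n : ℤ) := Int.floor_eq_iff.mpr (by simpa using hs)
    rw [this]
    have := Finset.mem_range.mp hn
    omega

lemma integral_ext_mul (N : ℕ) (a : ℕ → ℝ) (G : ℝ → ℝ) (hG : Measurable G) (K : ℝ)
    (hK : ∀ s, |G s| ≤ K) :
    ∫ s, ext N a ⌊s⌋ * G s = ∫ s in (0:ℝ)..1, ∑ n ∈ Finset.range N, a n * G (s + n) := by
  have hint : ∀ (u v : ℝ) (c d : ℝ), IntervalIntegrable (fun s => c * G (s + d)) volume u v := by
    intro u v c d
    apply IntervalIntegrable.const_mul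
    rw [intervalIntegrable_iff]
    apply Measure.integrableOn_of_bounded (M := K)
    · simp
    · exact (hG.comp (measurable_id.add_const d)).aestronglyMeasurable
    · exact Filter.Eventually.of_forall fun s => by simpa using hK (s + d)
  have h1 : ∀ n ∈ Finset.range N,
      Integrable (fun s => (Set.Ico (n : ℝ) (n + 1)).indicator (fun s => a n * G s) s) := by
    intro n _
    rw [integrable_indicator_iff measurableSet_Ico]
    apply Measure.integrableOn_of_bounded (M := |a n| * K)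
    · simp
    · exact (hG.const_mul _).aestronglyMeasurable
    · refine Filter.Eventually.of_forall fun s => ?_
      rw [Real.norm_eq_abs, abs_mul]
      exact mul_le_mul_of_nonneg_left (hK s) (abs_nonneg _)
  calc ∫ s, ext N a ⌊s⌋ * G s
      = ∫ s, ∑ n ∈ Finset.range N,
        (Set.Ico (n : ℝ) (n + 1)).indicator (fun s => a n * G s) s := by
        congr 1; ext s; exact ext_mul_eq N a G s
    _ = ∑ n ∈ Finset.range N, ∫ s,
        (Set.Ico (n : ℝ) (n + 1)).indicator (fun s => a n * G s) s :=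
        integral_finsetSum _ h1
    _ = ∑ n ∈ Finset.range N, ∫ s in (0:ℝ)..1, a n * G (s + n) := by
        apply Finset.sum_congr rfl
        intro n _
        rw [integral_indicator measurableSet_Ico, integral_Ico_eq_integral_Ioc,
          ← intervalIntegral.integral_of_le (by linarith)]
        have := intervalIntegral.integral_comp_add_right (a := 0) (b := 1)
          (fun s => a n * G s) (n : ℝ)
        rw [this]
        congr 1 <;> ring
    _ = _ := by
        rw [intervalIntegral.integral_finsetSum]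
        intro n _
        exact hint 0 1 (a n) n

/-- the step function on `[-1/4, 1/4)` with heights `a` -/
noncomputable def stepf (N : ℕ) (a : ℕ → ℝ) (x : ℝ) : ℝ := ext N a ⌊(x + 1/4) * (2 * N)⌋

lemma measurable_stepf (N : ℕ) (a : ℕ → ℝ) : Measurable (stepf N a) :=
  (measurable_ext_floor N a).comp ((measurable_id.add_const (1/4)).mul_const (2 * (N:ℝ)))

lemma stepf_zero (N : ℕ) (hN : 0 < N) (a : ℕ → ℝ) (x : ℝ) (hx : x ∉ Set.Icc (-1/4 : ℝ) (1/4)) :
    stepf N a x = 0 := by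
  unfold stepf ext
  rw [if_neg]
  rintro ⟨h1, h2⟩
  apply hx
  have hN' : (0:ℝ) < 2 * N := by positivity
  have h3 := Int.le_floor.mp h1
  have h4 := Int.floor_lt.mp h2
  push_cast at h3 h4
  constructor
  · by_contra hlt
    push Not at hlt
    have : (x + 1/4) * (2 * N) < 0 := mul_neg_of_neg_of_pos (by linarith) hN'
    linarith
  · by_contra hlt
    push Not at hlt
    have : (1/2) * (2 * N) < (x + 1/4) * (2 * N) := mul_lt_mul_of_pos_right (by linarith) hN'
    linarith

lemma memLp_stepf (N : ℕ) (hN : 0 < N) (a : ℕ → ℝ) (ha : ∀ i, 0 ≤ a i) :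
    MemLp (stepf N a) 2 volume := by
  have h1 : stepf N a = (Set.Icc (-1/4 : ℝ) (1/4)).indicator (stepf N a) := by
    ext x
    by_cases hx : x ∈ Set.Icc (-1/4 : ℝ) (1/4)
    · rw [Set.indicator_of_mem hx]
    · rw [Set.indicator_of_notMem hx, stepf_zero N hN a x hx]
  rw [h1, memLp_indicator_iff_restrict measurableSet_Icc]
  have : IsFiniteMeasure (volume.restrict (Set.Icc (-1/4 : ℝ) (1/4))) := by
    constructor
    simp
  apply MemLp.of_bound (measurable_stepf N a).aestronglyMeasurable (∑ i ∈ Finset.range N, a i)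
  refine Filter.Eventually.of_forall fun x => ?_
  have h2 : 0 ≤ stepf N a x := ext_nonneg N a ha _
  rw [Real.norm_eq_abs, abs_of_nonneg h2]
  exact ext_le N a ha _

lemma integral_stepf (N : ℕ) (hN : 0 < N) (a : ℕ → ℝ) :
    ∫ x in Set.Icc (-1/4 : ℝ) (1/4), stepf N a x = (2 * N : ℝ)⁻¹ * ∑ i ∈ Finset.range N, a i := by
  rw [setIntegral_eq_integral_of_forall_compl_eq_zero (fun x hx => stepf_zero N hN a x hx)]
  have hN' : (0:ℝ) < 2 * N := by positivity
  have h1 : ∫ x, stepf N a x = ∫ x : ℝ, (fun x : ℝ => ext N a ⌊x * (2 * N)⌋) (x + 1/4) := rfl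
  rw [h1, integral_add_right_eq_self (fun x : ℝ => ext N a ⌊x * (2 * N)⌋) (1/4 : ℝ)]
  have h2 : ∫ x : ℝ, ext N a ⌊x * (2 * N)⌋ = |(2 * N : ℝ)⁻¹| • ∫ s, ext N a ⌊s⌋ :=
    Measure.integral_comp_mul_right (fun s => ext N a ⌊s⌋) (2 * N : ℝ)
  rw [h2, abs_of_pos (inv_pos.mpr hN'), smul_eq_mul]
  congr 1
  have h3 := integral_ext_mul N a (fun _ => 1) measurable_const 1 (by simp)
  simpa using h3

lemma autoconv_stepf_le (N : ℕ) (hN : 0 < N) (a : ℕ → ℝ) (ha : ∀ i, 0 ≤ a i) (M : ℝ)
    (hM : ∀ k : ℤ, ∑ n ∈ Finset.range N, a n * ext N a (k - n) ≤ M) (t : ℝ) :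
    autoconv (stepf N a) t ≤ (2 * N : ℝ)⁻¹ * M := by
  have hN' : (0:ℝ) < 2 * N := by positivity
  set τ : ℝ := (t + 1/2) * (2 * N) with hτ
  have h1 : autoconv (stepf N a) t
      = ∫ x : ℝ, (fun x : ℝ => ext N a ⌊x * (2 * N)⌋ * ext N a ⌊τ - x * (2 * N)⌋) (x + 1/4) := by
    unfold autoconv stepf
    congr 1
    ext x
    simp only
    congr 3
    rw [hτ]
    ring
  rw [h1, integral_add_right_eq_self
    (fun x : ℝ => ext N a ⌊x * (2 * N)⌋ * ext N a ⌊τ - x * (2 * N)⌋) (1/4 : ℝ)]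
  have h2 : ∫ x : ℝ, ext N a ⌊x * (2 * N)⌋ * ext N a ⌊τ - x * (2 * N)⌋
      = |(2 * N : ℝ)⁻¹| • ∫ s, ext N a ⌊s⌋ * ext N a ⌊τ - s⌋ :=
    Measure.integral_comp_mul_right (fun s => ext N a ⌊s⌋ * ext N a ⌊τ - s⌋) (2 * N : ℝ)
  rw [h2, abs_of_pos (inv_pos.mpr hN'), smul_eq_mul]
  apply mul_le_mul_of_nonneg_left _ (inv_nonneg.mpr hN'.le)
  have hGm : Measurable (fun s : ℝ => ext N a ⌊τ - s⌋) :=
    (measurable_ext_floor N a).comp (measurable_const.sub measurable_id)
  have hGb : ∀ s : ℝ, |ext N a ⌊τ - s⌋| ≤ ∑ i ∈ Finset.range N, a i := fun s => by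
    rw [abs_of_nonneg (ext_nonneg N a ha _)]
    exact ext_le N a ha _
  rw [integral_ext_mul N a (fun s => ext N a ⌊τ - s⌋) hGm _ hGb]
  have h3 : ∫ s in (0:ℝ)..1, ∑ n ∈ Finset.range N, a n * ext N a ⌊τ - (s + n)⌋
      ≤ ∫ s in (0:ℝ)..1, M := by
    apply intervalIntegral.integral_mono_on (by norm_num)
    · rw [intervalIntegrable_iff]
      apply Measure.integrableOn_of_bounded
        (M := ∑ n ∈ Finset.range N, a n * ∑ i ∈ Finset.range N, a i)
      · simp
      · apply Measurable.aestronglyMeasurable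
        apply Finset.measurable_sum
        intro n _
        exact (hGm.comp (measurable_id.add_const (n:ℝ))).const_mul _
      · refine Filter.Eventually.of_forall fun s => ?_
        rw [Real.norm_eq_abs, abs_of_nonneg]
        · exact Finset.sum_le_sum fun n _ =>
            mul_le_mul_of_nonneg_left (ext_le N a ha _) (ha n)
        · exact Finset.sum_nonneg fun n _ => mul_nonneg (ha n) (ext_nonneg N a ha _)
    · exact intervalIntegrable_const
    · intro s _
      have : ∀ n : ℕ, ⌊τ - (s + n)⌋ = ⌊τ - s⌋ - n := by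
        intro n
        rw [← sub_sub, Int.floor_sub_natCast]
      simp only [this]
      exact hM _
  simpa using h3

lemma works_le (N : ℕ) (hN : 0 < N) (a : ℕ → ℝ) (ha : ∀ i, 0 ≤ a i) (M : ℝ)
    (hM : ∀ k : ℤ, ∑ n ∈ Finset.range N, a n * ext N a (k - n) ≤ M)
    (hS : 0 < ∑ i ∈ Finset.range N, a i) (C : ℝ) (hC : Works C) :
    C ≤ 2 * N * M / (∑ i ∈ Finset.range N, a i) ^ 2 := by
  have hN' : (0:ℝ) < 2 * N := by positivity
  have h := hC (stepf N a) (fun x => ext_nonneg N a ha _) (memLp_stepf N hN a ha)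
  rw [integral_stepf N hN a] at h
  have h2 : sSup (autoconv (stepf N a) '' Set.Icc (-1/2 : ℝ) (1/2)) ≤ (2 * N : ℝ)⁻¹ * M := by
    apply csSup_le
    · exact ⟨_, 0, by constructor <;> norm_num, rfl⟩
    · rintro _ ⟨t, _, rfl⟩
      exact autoconv_stepf_le N hN a ha M hM t
  have h3 := h.trans h2
  rw [le_div_iff₀ (by positivity)]
  have h4 : C * (∑ i ∈ Finset.range N, a i) ^ 2
      = (2 * N : ℝ) ^ 2 * (C * ((2 * N : ℝ)⁻¹ * ∑ i ∈ Finset.range N, a i) ^ 2) := by
    field_simp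
  rw [h4]
  calc (2 * N : ℝ) ^ 2 * (C * ((2 * N : ℝ)⁻¹ * ∑ i ∈ Finset.range N, a i) ^ 2)
      ≤ (2 * N : ℝ) ^ 2 * ((2 * N : ℝ)⁻¹ * M) := mul_le_mul_of_nonneg_left h3 (by positivity)
    _ = 2 * N * M := by field_simp

lemma works_zero : Works 0 := by
  intro f hf _
  rw [zero_mul]
  apply Real.sSup_nonneg
  rintro _ ⟨t, _, rfl⟩
  exact integral_nonneg fun y => mul_nonneg (hf _) (hf _)

end Pool.Agent.AC833
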