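import Mathlib

/-!
The autocorrelation constant `C_{1a}`.
-/

namespace Pool.Agent.AC833

open MeasureTheory

/-- The autoconvolution `(f*f)(t) = ∫ f(y) f(t-y) dy` (Lebesgue integral over the real line). -/
noncomputable def autoconv (f : ℝ → ℝ) (t : ℝ) : ℝ := ∫ y, f y * f (t - y)

/-- `C` is admissible: for every nonnegative square-integrable `f : ℝ → ℝ`,
`sup_{|t| ≤ 1/2} (f*f)(t) ≥ C (∫_{[-1/4,1/4]} f)^2`. -/
def Works (C : ℝ) : Prop :=
  ∀ f : ℝ → ℝ, (∀ x, 0 ≤ f x) → MemLp f 2 volume →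
    C * (∫ x in Set.Icc (-1/4 : ℝ) (1/4), f x) ^ 2 ≤
      sSup (autoconv f '' Set.Icc (-1/2 : ℝ) (1/2))

/-- The constant `C_{1a}`: the supremum of all admissible real `C`. -/
noncomputable def C1a : ℝ := sSup {C : ℝ | Works C}

end Pool.Agent.AC833
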