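import Pool.Agent.AC833.Core

/-!
Digit extraction by halving, evaluated in the kernel, and the resulting bound.
-/

namespace Pool.Agent.AC833

/-- all base `2^w` digits of `X` at the positions below `2^d` are at most `M` -/
noncomputable def chk (w M : ℕ) (d : ℕ) : ℕ → Bool :=
  Nat.rec (motive := fun _ => ℕ → Bool) (fun X => Nat.ble X M)
    (fun d ih X => Bool.and (ih (Nat.mod X (Nat.pow 2 (Nat.mul w (Nat.pow 2 d)))))
      (ih (Nat.div X (Nat.pow 2 (Nat.mul w (Nat.pow 2 d)))))) d

/-- the sum of the base `2^w` digits of `X` at the positions below `2^d` -/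
noncomputable def sumd (w : ℕ) (d : ℕ) : ℕ → ℕ :=
  Nat.rec (motive := fun _ => ℕ → ℕ) (fun X => X)
    (fun d ih X => Nat.add (ih (Nat.mod X (Nat.pow 2 (Nat.mul w (Nat.pow 2 d)))))
      (ih (Nat.div X (Nat.pow 2 (Nat.mul w (Nat.pow 2 d)))))) d

lemma chk_zero (w M X : ℕ) : chk w M 0 X = Nat.ble X M := rfl

lemma chk_succ (w M d X : ℕ) : chk w M (d + 1) X =
    (chk w M d (X % 2 ^ (w * 2 ^ d)) && chk w M d (X / 2 ^ (w * 2 ^ d))) := rfl

lemma sumd_zero (w X : ℕ) : sumd w 0 X = X := rfl

lemma sumd_succ (w d X : ℕ) : sumd w (d + 1) X =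
    sumd w d (X % 2 ^ (w * 2 ^ d)) + sumd w d (X / 2 ^ (w * 2 ^ d)) := rfl

/-- digit -/
def dig (w X k : ℕ) : ℕ := X / (2 ^ w) ^ k % 2 ^ w

lemma dig_mod (w d X k : ℕ) (hk : k < 2 ^ d) : dig w (X % 2 ^ (w * 2 ^ d)) k = dig w X k := by
  unfold dig
  obtain ⟨r, hr⟩ := Nat.exists_eq_add_of_lt hk
  have h1 : 2 ^ (w * 2 ^ d) = (2 ^ w) ^ k * (2 ^ w * (2 ^ w) ^ r) := by
    rw [pow_mul, hr]; ring
  rw [h1, Nat.mod_mul_right_div_self, Nat.mod_mod_of_dvd _ (Dvd.intro _ rfl)]

lemma dig_div (w d X k : ℕ) : dig w (X / 2 ^ (w * 2 ^ d)) k = dig w X (2 ^ d + k) := by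
  unfold dig
  rw [Nat.div_div_eq_div_mul]
  congr 2
  rw [pow_mul, ← pow_add]

lemma chk_spec (w M d : ℕ) : ∀ X, chk w M d X = true → ∀ k < 2 ^ d, dig w X k ≤ M := by
  induction d with
  | zero =>
    intro X h k hk
    have hk0 : k = 0 := by simpa using hk
    subst hk0
    rw [chk_zero] at h
    have := Nat.le_of_ble_eq_true h
    unfold dig
    exact (Nat.mod_le _ _).trans (by simpa using this)
  | succ d ih =>
    intro X h k hk
    rw [chk_succ, Bool.and_eq_true] at h
    by_cases hk2 : k < 2 ^ d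
    · rw [← dig_mod w d X k hk2]
      exact ih _ h.1 k hk2
    · obtain ⟨j, rfl⟩ := Nat.exists_eq_add_of_le (not_lt.mp hk2)
      rw [← dig_div]
      apply ih _ h.2
      rw [pow_succ] at hk
      omega

lemma sumd_spec (w d : ℕ) : ∀ X, X < 2 ^ (w * 2 ^ d) →
    sumd w d X = ∑ i ∈ Finset.range (2 ^ d), dig w X i := by
  induction d with
  | zero =>
    intro X h
    rw [sumd_zero]
    simp only [pow_zero, mul_one, Finset.range_one, Finset.sum_singleton] at h ⊢
    unfold dig
    rw [pow_zero, Nat.div_one, Nat.mod_eq_of_lt h]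
  | succ d ih =>
    intro X h
    have hpos : 0 < 2 ^ (w * 2 ^ d) := by positivity
    rw [sumd_succ, ih _ (Nat.mod_lt _ hpos), ih]
    · rw [pow_succ, mul_two, Finset.sum_range_add]
      congr 1
      · apply Finset.sum_congr rfl
        intro i hi
        exact dig_mod w d X i (Finset.mem_range.mp hi)
      · apply Finset.sum_congr rfl
        intro i _
        exact dig_div w d X i
    · rw [Nat.div_lt_iff_lt_mul hpos, ← pow_add]
      calc X < 2 ^ (w * 2 ^ (d + 1)) := h
        _ = 2 ^ (w * 2 ^ d + w * 2 ^ d) := by congr 1; ring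

lemma mod_eq_sum (w P N : ℕ) :
    P % (2 ^ w) ^ N = ∑ i ∈ Finset.range N, dig w P i * (2 ^ w) ^ i := by
  induction N with
  | zero => simp [Nat.mod_one]
  | succ N ih =>
    rw [Finset.sum_range_succ, ← ih, Nat.mod_pow_succ]
    unfold dig
    ring

lemma sum_lt (B : ℕ) (c : ℕ → ℕ) (hc : ∀ k, c k < B) (j : ℕ) :
    ∑ k ∈ Finset.range j, c k * B ^ k < B ^ j := by
  induction j with
  | zero => simp
  | succ j ih =>
    rw [Finset.sum_range_succ, pow_succ]
    have h1 : c j + 1 ≤ B := hc j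
    have h2 : (c j + 1) * B ^ j ≤ B * B ^ j := Nat.mul_le_mul_right _ h1
    nlinarith

lemma dig_sum (w : ℕ) (c : ℕ → ℕ) (hc : ∀ k, c k < 2 ^ w) (K j : ℕ) (hj : j < K) :
    dig w (∑ k ∈ Finset.range K, c k * (2 ^ w) ^ k) j = c j := by
  obtain ⟨r, hr⟩ := Nat.exists_eq_add_of_lt hj
  have h1 : K = j + (1 + r) := by omega
  have h2 : ∑ k ∈ Finset.range K, c k * (2 ^ w) ^ k =
      ∑ k ∈ Finset.range j, c k * (2 ^ w) ^ k +
        (2 ^ w) ^ j * (c j + 2 ^ w * ∑ k ∈ Finset.range r, c (j + (1 + k)) * (2 ^ w) ^ k) := by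
    rw [h1, Finset.sum_range_add]
    congr 1
    rw [Finset.sum_range_add]
    simp only [Finset.range_one, Finset.sum_singleton, add_zero]
    rw [mul_add, Finset.mul_sum, Finset.mul_sum]
    congr 1
    · ring
    · apply Finset.sum_congr rfl
      intro k _
      ring
  unfold dig
  rw [h2, Nat.add_mul_div_left _ _ (by positivity),
    Nat.div_eq_of_lt (sum_lt (2 ^ w) c hc j), zero_add, Nat.add_mul_mod_self_left,
    Nat.mod_eq_of_lt (hc j)]

lemma sq_eq_sum (B N : ℕ) (a : ℕ → ℕ) (ha : ∀ i, N ≤ i → a i = 0) :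
    (∑ i ∈ Finset.range N, a i * B ^ i) * (∑ i ∈ Finset.range N, a i * B ^ i) =
      ∑ k ∈ Finset.range (2 * N), (∑ n ∈ Finset.range (k + 1), a n * a (k - n)) * B ^ k := by
  classical
  set p : Polynomial ℕ := ∑ i ∈ Finset.range N, Polynomial.monomial i (a i) with hp
  have hco : ∀ i, p.coeff i = a i := by
    intro i
    rw [hp, Polynomial.finsetSum_coeff]
    simp only [Polynomial.coeff_monomial]
    rw [Finset.sum_ite_eq' (Finset.range N) i a]
    split_ifs with h
    · rfl
    · rw [ha i (by simpa using h)]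
  have hev : p.eval B = ∑ i ∈ Finset.range N, a i * B ^ i := by
    rw [hp, Polynomial.eval_finsetSum]
    simp
  have hz : ∀ k, 2 * N ≤ k → (p * p).coeff k = 0 := by
    intro k hk
    rw [Polynomial.coeff_mul]
    apply Finset.sum_eq_zero
    rintro ⟨x, y⟩ hxy
    rw [Finset.HasAntidiagonal.mem_antidiagonal] at hxy
    simp only at hxy ⊢
    rw [hco, hco]
    by_cases hx : N ≤ x
    · rw [ha x hx, zero_mul]
    · rw [ha y (by omega), mul_zero]
  rw [← hev, ← Polynomial.eval_mul]
  rcases Nat.eq_zero_or_pos N with h0 | h0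
  · subst h0
    have : p = 0 := by rw [hp]; simp
    rw [this]
    simp
  rw [Polynomial.eval_eq_sum_range' (n := 2 * N)]
  · apply Finset.sum_congr rfl
    intro k _
    congr 1
    rw [Polynomial.coeff_mul, Finset.Nat.sum_antidiagonal_eq_sum_range_succ_mk]
    apply Finset.sum_congr rfl
    intro n _
    rw [hco, hco]
  · by_contra hcon
    push Not at hcon
    have h3 : (p * p).coeff (p * p).natDegree = 0 := hz _ hcon
    have h4 : p * p = 0 := Polynomial.leadingCoeff_eq_zero.mp h3
    rw [h4, Polynomial.natDegree_zero] at hcon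
    omega

theorem bound_of_digits (w d P A M S : ℕ) (hP : P < 2 ^ (w * 2 ^ d))
    (hA : chk w A d P = true) (hAB : 2 ^ (d + 1) * A ^ 2 < 2 ^ w)
    (hM : chk w M (d + 1) (P * P) = true) (hS : sumd w d P = S) (hS0 : 0 < S)
    (C : ℝ) (hC : Works C) : C ≤ 2 * (2:ℝ) ^ d * M / (S:ℝ) ^ 2 := by
  set N := 2 ^ d with hN
  have hN0 : 0 < N := by positivity
  set a : ℕ → ℕ := dig w P with ha
  have hPN : P < (2 ^ w) ^ N := by rw [← pow_mul]; exact hP
  have haz : ∀ i, N ≤ i → a i = 0 := by
    intro i hi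
    rw [ha]
    unfold dig
    rw [Nat.div_eq_of_lt (hPN.trans_le (Nat.pow_le_pow_right (by positivity) hi)), Nat.zero_mod]
  have haA : ∀ i, a i ≤ A := by
    intro i
    by_cases hi : i < N
    · exact chk_spec w A d P hA i hi
    · rw [haz i (not_lt.mp hi)]; exact Nat.zero_le _
  have hPs : P = ∑ i ∈ Finset.range N, a i * (2 ^ w) ^ i := by
    rw [← mod_eq_sum, Nat.mod_eq_of_lt hPN]
  set c : ℕ → ℕ := fun k => ∑ n ∈ Finset.range (k + 1), a n * a (k - n) with hc
  have hcz : ∀ k, 2 * N ≤ k → c k = 0 := by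
    intro k hk
    apply Finset.sum_eq_zero
    intro n hn
    have := Finset.mem_range.mp hn
    by_cases hx : N ≤ n
    · rw [haz n hx, zero_mul]
    · rw [haz (k - n) (by omega), mul_zero]
  have hcB : ∀ k, c k < 2 ^ w := by
    intro k
    by_cases hk : 2 * N ≤ k
    · rw [hcz k hk]; positivity
    · have h1 : c k ≤ ∑ n ∈ Finset.range (k + 1), A * A :=
        Finset.sum_le_sum fun n _ => Nat.mul_le_mul (haA _) (haA _)
      rw [Finset.sum_const, Finset.card_range, smul_eq_mul] at h1
      have h2 : (k + 1) * (A * A) ≤ 2 ^ (d + 1) * A ^ 2 := by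
        rw [pow_succ, ← hN, sq]
        exact Nat.mul_le_mul_right _ (by omega)
      omega
  have hcM : ∀ k, c k ≤ M := by
    intro k
    by_cases hk : 2 * N ≤ k
    · rw [hcz k hk]; exact Nat.zero_le _
    · have h1 := dig_sum w c hcB (2 * N) k (by omega)
      rw [← sq_eq_sum (2 ^ w) N a haz, ← hPs] at h1
      rw [← h1]
      apply chk_spec w M (d + 1) (P * P) hM k
      rw [pow_succ]
      omega
  have hSs : (S : ℝ) = ∑ i ∈ Finset.range N, (a i : ℝ) := by
    rw [← hS, sumd_spec w d P hP]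
    push_cast
    rfl
  have key := works_le N hN0 (fun i => (a i : ℝ)) (fun i => by positivity) (M : ℝ) ?_ ?_ C hC
  · rw [← hSs] at key
    have : (N : ℝ) = (2:ℝ) ^ d := by rw [hN]; push_cast; rfl
    rw [this] at key
    exact key
  · intro k
    rcases lt_or_ge k 0 with hk | hk
    · have : ∀ n ∈ Finset.range N, (a n : ℝ) * ext N (fun i => (a i : ℝ)) (k - n) = 0 := by
        intro n _
        have : ext N (fun i => (a i : ℝ)) (k - n) = 0 := by
          unfold ext
          rw [if_neg]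
          omega
        rw [this, mul_zero]
      rw [Finset.sum_eq_zero this]
      positivity
    · obtain ⟨m, rfl⟩ := Int.eq_ofNat_of_zero_le hk
      have h1 : ∀ n ∈ Finset.range N, (a n : ℝ) * ext N (fun i => (a i : ℝ)) ((m : ℤ) - n)
          ≤ if n ≤ m then (a n : ℝ) * a (m - n) else 0 := by
        intro n _
        unfold ext
        by_cases hnm : n ≤ m
        · rw [if_pos hnm]
          have h2 : ((m : ℤ) - n).toNat = m - n := by omega
          rw [h2]
          split_ifs
          · exact le_rfl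
          · rw [mul_zero]; positivity
        · rw [if_neg hnm, if_neg (by omega), mul_zero]
      refine (Finset.sum_le_sum h1).trans ?_
      rw [← Finset.sum_filter]
      have h2 : ∑ n ∈ (Finset.range N).filter (fun n => n ≤ m), (a n : ℝ) * a (m - n)
          ≤ ∑ n ∈ Finset.range (m + 1), (a n : ℝ) * a (m - n) := by
        apply Finset.sum_le_sum_of_subset_of_nonneg
        · intro n hn
          rw [Finset.mem_filter] at hn
          rw [Finset.mem_range]
          omega
        · intro n _ _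
          positivity
      refine h2.trans ?_
      have h3 := hcM m
      have h4 : ((c m : ℕ) : ℝ) ≤ (M : ℝ) := by exact_mod_cast h3
      simpa [hc] using h4
  · show 0 < ∑ i ∈ Finset.range N, ((a i : ℕ) : ℝ)
    rw [← hSs]
    exact_mod_cast hS0

end Pool.Agent.AC833
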